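import Pool.Agent.H818.PG.Fin

/-!
# Complexes of groups of large type: coarse embeddings

The zero-in-the-spectrum conjecture holds for closed aspherical manifolds whose fundamental group
embeds coarsely into a Hilbert space (Yu, Skandalis, Tu and Yu, Lott). Let `I` be a finite set, and
let the countable group `Γ` be the direct limit of its subgroups `V s(s, t)`, for `s, t` in `I`,
along the subgroups `V s(s, s)`, where all intersections of two different `V s(s, s)` are equal and
in `V s(s, t)` there are no relations of length four between `V s(s, s)` and `V s(t, t)`. Then `Γ`
embeds coarsely into a Hilbert space if and only if all `V s(s, t)` do. Examples are Artin groups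
and Pride groups of large type and direct limits of triangles of groups whose angles are at most
`π / 3` in the sense of Gersten and Stallings.
-/

set_option autoImplicit false

namespace Pool.Agent.Results.MP_9f173d_gt.LargeTypeCoarse

open Pool.Agent.H818.PG Pool.Agent.N506.EX

universe u

theorem result {Γ : Type u} [Group Γ] [Countable Γ] {I : Type} [Finite I] [Nonempty I]
    (V : Sym2 I → Subgroup Γ) (hV : LargeType V) :
    CoarselyEmbeds Γ ↔ ∀ e, CoarselyEmbeds (V e) :=
  hV.coarselyEmbeds_iff

end Pool.Agent.Results.MP_9f173d_gt.LargeTypeCoarse
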