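import Pool.Agent.H818.CS.UC

/-!
# Groups acting on uniformly convex metric spaces with property A

Let `M` be a closed oriented aspherical manifold. If its fundamental group `G` embeds coarsely into
a Hilbert space then some `H_i(M; C*_r(G))` does not vanish (Yu; Skandalis, Tu and Yu: the assembly
map is injective; Gromov, Lott: then zero is in the spectrum of the Laplacian of the universal
cover). Here we study which groups embed. Let a countable group `G` act by isometries on a uniformly
convex metric space `X`, for instance on a `CAT(0)` space or, more generally, on a space with the
inequality of Bruhat and Tits (`Pool.Agent.H818.CS.uniformlyConvex_of_bruhatTits`), and suppose that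
`X` has property A. We do not assume that the action is proper or cocompact, nor that `X` is
locally compact or of bounded geometry. Let `ζ` be a `G`-equivariant and uniformly continuous map
from `X` to the finitely supported probability measures on a `G`-set `K`: for instance, the
barycentric coordinates with respect to the vertices of a finite-dimensional `CAT(0)` complex with
finitely many shapes of simplices, or a partition of unity for an invariant cover of finite
multiplicity and with positive Lebesgue number. Then `G` embeds coarsely into a Hilbert space if and
only if the stabilizers of the points of `K` (which occur in `ζ`) do.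

The usual fibering theorems need that the sets of all elements `g` with `d(x, g x) ≤ r` embed
uniformly in a Hilbert space; here only the stabilizers are used, and nothing is assumed on the
dependence of their embeddings on the point of `K`.

The proof: for a point `c` of the orbit consider the points of a finite set `E_i ⊆ X` with the least
distance from `c`, for sets `E_1 ⊆ E_2 ⊆ ...` which are closed under the given elements of the group
and under midpoints; the least distances decrease in `i`, so for most `i` hardly, and then uniform
convexity shows that the minimizers for the data moved by the group elements are close to each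
other. The averages over `i` of the measures `ζ` at the minimizers are almost invariant.
-/

set_option autoImplicit false

namespace Pool.Agent.Results.MP_9f173d_gt.UniformlyConvexSpaces

open Pool.Agent.H818.CS Pool.Agent.N506.EX

universe u v w

theorem result {G : Type u} [Group G] [Countable G] {X : Type v} [PseudoMetricSpace X]
    [Nonempty X] [MulAction G X] [IsIsometricSMul G X]
    (hX : UniformlyConvex X) (hA : MetricPropertyA X)
    {K : Type w} [MulAction G K] (ζ : X → K →₀ ℝ) (hζ : ∀ x, Prob (ζ x))
    (heq : ∀ (g : G) (x : X) (k : K), ζ (g • x) (g • k) = ζ x k)
    (huc : ∀ ε : ℝ, 0 < ε → ∃ δ : ℝ, 0 < δ ∧ ∀ x y : X, dist x y < δ →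
      norm1 (ζ x - ζ y) ≤ ε) :
    CoarselyEmbeds G ↔ ∀ k : K, (∃ x, ζ x k ≠ 0) →
      CoarselyEmbeds (MulAction.stabilizer G k) := by
  constructor
  · intro h k _
    exact CoarselyEmbeds.of_injective h (Subgroup.subtype _) (Subgroup.subtype_injective _)
  · intro h
    refine coarselyEmbeds_of_uniformlyConvex hX hA ζ
      (fun k ⟨x, hx⟩ => h k ⟨x, Finsupp.mem_support_iff.1 hx⟩) hζ (fun g x => ?_) huc
    ext k
    have h1 : k = g • (g⁻¹ • k) := (smul_inv_smul g k).symm
    rw [h1, heq]
    exact (Finsupp.mapDomain_apply (MulAction.injective g) (ζ x) (g⁻¹ • k)).symm

end Pool.Agent.Results.MP_9f173d_gt.UniformlyConvexSpaces
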